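import Mathlib

/-!
# The retractions of a complete lattice form a complete lattice

For a set `S` of retractions of a complete lattice the least upper bound is the pointwise supremum of
all order-preserving maps `g` with `g ≤ g ∘ g` that lie below every retraction that bounds `S`.
-/

namespace Pool.Agent.Results.MP_31821e_co.CompleteCase

universe u

theorem exists_lub {L : Type u} [CompleteLattice L]
    (S : Set {f : L →o L // ∀ x, f (f x) = f x}) : ∃ t, IsLUB S t := by
  set A : Set (L →o L) := {g | (∀ x, g x ≤ g (g x)) ∧ ∀ t ∈ upperBounds S, g ≤ t.1} with hA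
  set G : L →o L := sSup A with hG
  have hle : ∀ g ∈ A, ∀ x, g x ≤ G x := fun g hg x => (le_sSup hg : g ≤ G) x
  have hG1 : ∀ x, G x ≤ G (G x) := by
    intro x
    have : ∀ g ∈ A, ∀ x, g x ≤ G (G x) := fun g hg x =>
      (hg.1 x).trans ((g.mono (hle g hg x)).trans (hle g hg _))
    have h2 : G ≤ G.comp G := sSup_le fun g hg x => this g hg x
    exact h2 x
  have hG2 : ∀ t ∈ upperBounds S, G ≤ t.1 := fun t ht => sSup_le fun g hg => hg.2 t ht
  have hGG : G.comp G ∈ A := by
    refine ⟨fun x => ?_, fun t ht x => ?_⟩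
    · change G (G x) ≤ G (G (G (G x)))
      exact (hG1 (G x)).trans (hG1 _)
    · change G (G x) ≤ t.1 x
      rw [← t.2 x]
      exact (hG2 t ht _).trans (t.1.mono (hG2 t ht x))
  have hidem : ∀ x, G (G x) = G x := fun x => le_antisymm (hle _ hGG x) (hG1 x)
  refine ⟨⟨G, hidem⟩, fun f hf => ?_, fun t ht => hG2 t ht⟩
  have : f.1 ∈ A := ⟨fun x => (f.2 x).ge, fun t ht => ht hf⟩
  exact fun x => hle _ this x

/-- In the poset of all retractions (idempotent order-preserving self-maps) of a complete lattice,
every set has a least upper bound and a greatest lower bound. -/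
theorem result : ∀ (L : Type u) [CompleteLattice L] (S : Set {f : L →o L // ∀ x, f (f x) = f x}),
    (∃ t, IsLUB S t) ∧ (∃ t, IsGLB S t) := by
  intro L _ S
  refine ⟨exists_lub S, ?_⟩
  obtain ⟨t, ht⟩ := exists_lub (lowerBounds S)
  exact ⟨t, isLUB_lowerBounds.1 ht⟩

end Pool.Agent.Results.MP_31821e_co.CompleteCase
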