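import Mathlib

/-!
# Two retractions of a chain without a least upper bound and two without a greatest lower bound

The chain is `ω + ω*`, i.e. `ℕ ⊕ₗ ℕᵒᵈ`. The closure operators `r` (fixing the odd numbers and the
upper half) and `s` (fixing the even numbers and the upper half) have upper bounds among the
retractions, but no least one, since every such upper bound sends the lower half into the upper half.
-/

namespace Pool.Agent.Results.MP_31821e_co.NotLattice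

/-- The closure operator of `ℕ` that rounds up to a number of the parity of `c + 1`. -/
def up (c n : ℕ) : ℕ := if (n + c) % 2 = 0 then n + 1 else n

theorem up_mono (c : ℕ) : Monotone (up c) := by
  intro a b h
  unfold up
  split_ifs <;> omega

theorem up_up (c n : ℕ) : up c (up c n) = up c n := by
  unfold up
  split_ifs <;> omega

/-- The retraction of `ℕ ⊕ₗ ℕᵒᵈ` acting as `up c` on the lower half. -/
def R (c : ℕ) : (ℕ ⊕ₗ ℕᵒᵈ) →o (ℕ ⊕ₗ ℕᵒᵈ) where
  toFun x := match ofLex x with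
    | Sum.inl n => Sum.inlₗ (up c n)
    | Sum.inr m => Sum.inrₗ m
  monotone' := by
    intro x y h
    induction x using Lex.rec with | _ x =>
    induction y using Lex.rec with | _ y =>
    rcases x with n | m <;> rcases y with n' | m'
    · have h' : n ≤ n' := Sum.Lex.inl_le_inl_iff.1 h
      exact Sum.Lex.inl_le_inl_iff.2 (up_mono c h')
    · exact Sum.Lex.inl_le_inr _ _
    · exact absurd h (Sum.Lex.not_inr_le_inl)
    · exact h

theorem R_inl (c n : ℕ) : R c (Sum.inlₗ n) = Sum.inlₗ (up c n) := rfl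
theorem R_inr (c : ℕ) (m : ℕᵒᵈ) : R c (Sum.inrₗ m) = Sum.inrₗ m := rfl

theorem R_idem (c : ℕ) (x : ℕ ⊕ₗ ℕᵒᵈ) : R c (R c x) = R c x := by
  induction x using Lex.rec with | _ x =>
  rcases x with n | m
  · change R c (R c (Sum.inlₗ n)) = R c (Sum.inlₗ n)
    rw [R_inl, R_inl, up_up]
  · rfl

/-- The upper bounds `T k`. -/
def T (k : ℕᵒᵈ) : (ℕ ⊕ₗ ℕᵒᵈ) →o (ℕ ⊕ₗ ℕᵒᵈ) where
  toFun x := x ⊔ Sum.inrₗ k
  monotone' := by
    intro x y h
    exact sup_le_sup_right h _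

theorem T_idem (k : ℕᵒᵈ) (x : ℕ ⊕ₗ ℕᵒᵈ) : T k (T k x) = T k x := by
  change x ⊔ _ ⊔ _ = x ⊔ _
  rw [sup_assoc, sup_idem]

theorem R_le_T (c : ℕ) (k : ℕᵒᵈ) : R c ≤ T k := by
  intro x
  induction x using Lex.rec with | _ x =>
  rcases x with n | m
  · change Sum.inlₗ (up c n) ≤ _ ⊔ Sum.inrₗ k
    exact le_sup_of_le_right (Sum.Lex.inl_le_inr _ _)
  · change Sum.inrₗ m ≤ Sum.inrₗ m ⊔ Sum.inrₗ k
    exact le_sup_left

theorem no_lub : ¬ ∃ t : {f : (ℕ ⊕ₗ ℕᵒᵈ) →o (ℕ ⊕ₗ ℕᵒᵈ) // ∀ x, f (f x) = f x},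
    IsLUB {⟨R 0, R_idem 0⟩, ⟨R 1, R_idem 1⟩} t := by
  rintro ⟨⟨t, ht⟩, hlub⟩
  have h0 : R 0 ≤ t := by
    have := hlub.1 (Set.mem_insert _ _)
    exact this
  have h1 : R 1 ≤ t := by
    have := hlub.1 (Set.mem_insert_of_mem _ (Set.mem_singleton _))
    exact this
  have hT : ∀ k, t ≤ T k := by
    intro k
    have : (⟨t, ht⟩ : {f : (ℕ ⊕ₗ ℕᵒᵈ) →o (ℕ ⊕ₗ ℕᵒᵈ) // ∀ x, f (f x) = f x}) ≤ ⟨T k, T_idem k⟩ := by
      apply hlub.2
      intro f hf
      rcases hf with rfl | hf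
      · exact R_le_T 0 k
      · rw [Set.mem_singleton_iff] at hf
        subst hf
        exact R_le_T 1 k
    exact this
  -- the value at `inl 0`
  have : ∃ z, t (Sum.inlₗ 0) = toLex z := ⟨ofLex (t (Sum.inlₗ 0)), rfl⟩
  obtain ⟨z, hz⟩ := this
  rcases z with m | j
  · have h2 : t (toLex (Sum.inl m)) = toLex (Sum.inl m) := by
      rw [← hz]; exact ht _
    have h3 : R 0 (Sum.inlₗ m) ≤ t (Sum.inlₗ m) := h0 _
    have h4 : R 1 (Sum.inlₗ m) ≤ t (Sum.inlₗ m) := h1 _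
    rw [R_inl] at h3 h4
    change _ ≤ t (toLex (Sum.inl m)) at h3
    change _ ≤ t (toLex (Sum.inl m)) at h4
    rw [h2] at h3 h4
    have h5 : up 0 m ≤ m := Sum.Lex.inl_le_inl_iff.1 h3
    have h6 : up 1 m ≤ m := Sum.Lex.inl_le_inl_iff.1 h4
    unfold up at h5 h6
    split_ifs at h5 h6 <;> omega
  · have h2 := hT (OrderDual.toDual (OrderDual.ofDual j + 1)) (Sum.inlₗ 0)
    rw [hz] at h2
    change toLex (Sum.inr j) ≤ Sum.inlₗ 0 ⊔ Sum.inrₗ _ at h2
    rw [sup_eq_right.2 (Sum.Lex.inl_le_inr _ _)] at h2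
    have h3 : j ≤ OrderDual.toDual (OrderDual.ofDual j + 1) := Sum.Lex.inr_le_inr_iff.1 h2
    have h4 : OrderDual.ofDual j + 1 ≤ OrderDual.ofDual j := h3
    omega

/-- There is a chain `L` (in particular a lattice) with two retractions that have no least upper
bound in the poset of all retractions of `L`. -/
theorem result : ∃ (L : Type) (_ : LinearOrder L)
    (r s : {f : L →o L // ∀ x, f (f x) = f x}), ¬ ∃ t, IsLUB {r, s} t :=
  ⟨ℕ ⊕ₗ ℕᵒᵈ, inferInstance, ⟨R 0, R_idem 0⟩, ⟨R 1, R_idem 1⟩, no_lub⟩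

end Pool.Agent.Results.MP_31821e_co.NotLattice
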